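import Mathlib

/-!
# The barrel and the maps `φ`, `ψ` in the Poincaré disk
-/

open ComplexConjugate Set

namespace Q184.Edge

/-- `τ_a(z) = (z + a) / (ā z + 1)` -/
noncomputable def tau (a z : ℂ) : ℂ := (z + a) / (conj a * z + 1)

/-- The hyperbolic distance of two points of the unit disk
(`cosh d = 1 + 2 |z - w|² / ((1 - |z|²) (1 - |w|²))`). -/
noncomputable def hdist (z w : ℂ) : ℝ :=
  Real.arcosh (1 + 2 * ‖z - w‖ ^ 2 / ((1 - ‖z‖ ^ 2) * (1 - ‖w‖ ^ 2)))

/-- The signed hyperbolic distance of a point of the unit disk to the imaginary axis, negative when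
`Re z < 0` (see `abs_delta_isLeast` and `delta_neg_iff`). -/
noncomputable def delta (z : ℂ) : ℝ := Real.arsinh (2 * z.re / (1 - ‖z‖ ^ 2))

/-- The reflection `σ(z) = i z̄` in the line `Re z = Im z`. -/
noncomputable def sigma (z : ℂ) : ℂ := Complex.I * conj z

/-- `b_α = (1/2) arccosh (1 / (1 - 2 α²))` -/
noncomputable def bee (α : ℝ) : ℝ := 1 / 2 * Real.arcosh (1 / (1 - 2 * α ^ 2))

/-- The barrel `Q_α`: the points of the disk whose signed distances `δ` to the imaginary axis and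
`δ ∘ σ` to the real axis are in `[-b_α, b_α)`. -/
def barrel (α : ℝ) : Set ℂ :=
  {z | ‖z‖ < 1 ∧ (-bee α ≤ delta z ∧ delta z < bee α) ∧
    (-bee α ≤ delta (sigma z) ∧ delta (sigma z) < bee α)}

/-- `H(c, s) = τ_c {z | δ(z) < s}` -/
def H (c s : ℝ) : Set ℂ := tau c '' {z | ‖z‖ < 1 ∧ delta z < s}

/-- the quadrangle -/
def quadrangle (α β : ℝ) : Set ℂ := barrel α ∩ H (-β) (bee α)

/-- the lens -/
def lens (α : ℝ) : Set ℂ := barrel α \ H α (-bee α)

/-- the hourglass -/
def hourglass (α β : ℝ) : Set ℂ := barrel α \ (quadrangle α β ∪ lens α)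

open Classical in
/-- the map `φ`: `τ_β` on the quadrangle, `τ_{-α}` on the lens, `τ_{-α} τ_β` on the rest (the
hourglass) -/
noncomputable def phi (α β : ℝ) (z : ℂ) : ℂ :=
  if z ∈ quadrangle α β then tau β z else
    if z ∈ lens α then tau ((-α : ℝ) : ℂ) z else tau ((-α : ℝ) : ℂ) (tau β z)

/-- the map `ψ = σ φ σ` -/
noncomputable def psi (α β : ℝ) (z : ℂ) : ℂ := sigma (phi α β (sigma z))

/-- the lower boundary `β_α` of the legal region -/
noncomputable def betaLow (α : ℝ) : ℝ :=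
  α * (1 - √(1 - α ^ 2)) / (√(1 - α ^ 2) - α ^ 2)

end Q184.Edge
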