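import Mathlib
import Pool.Agent.Q184.Edge.Defs
import Pool.Agent.Q184.Piece.Exch

/-!
# Coordinates of the disk and the translation flow
-/

open ComplexConjugate Set Q184.Piece

namespace Q184.Edge

noncomputable def num (s : ℝ) (z : ℂ) : ℂ := (Real.exp s + 1 : ℝ) * z + (Real.exp s - 1 : ℝ)
noncomputable def den (s : ℝ) (z : ℂ) : ℂ := (Real.exp s - 1 : ℝ) * z + (Real.exp s + 1 : ℝ)
noncomputable def T (s : ℝ) (z : ℂ) : ℂ := num s z / den s z

theorem den_ne (s : ℝ) {z : ℂ} (hz : ‖z‖ < 1) : den s z ≠ 0 := by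
  intro h
  have h1 : ((Real.exp s + 1 : ℝ) : ℂ) = -((Real.exp s - 1 : ℝ) * z) := by
    unfold den at h
    linear_combination h
  have h2 := congrArg norm h1
  rw [norm_neg, norm_mul, Complex.norm_real, Complex.norm_real] at h2
  have h3 : 0 < Real.exp s := Real.exp_pos s
  have h4 : ‖Real.exp s + 1‖ = Real.exp s + 1 := by
    rw [Real.norm_eq_abs, abs_of_pos]; linarith
  have h5 : ‖Real.exp s - 1‖ < Real.exp s + 1 := by
    rw [Real.norm_eq_abs, abs_lt]; constructor <;> linarith
  rw [h4] at h2
  nlinarith [norm_nonneg z, norm_nonneg (Real.exp s - 1)]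

theorem normSq_lt {z : ℂ} (hz : ‖z‖ < 1) : Complex.normSq z < 1 := by
  rw [Complex.normSq_eq_norm_sq]
  nlinarith [norm_nonneg z]

theorem norm_lt_of_normSq {z : ℂ} (hz : Complex.normSq z < 1) : ‖z‖ < 1 := by
  rw [Complex.normSq_eq_norm_sq] at hz
  nlinarith [norm_nonneg z]

theorem den_sub_num (s : ℝ) (z : ℂ) : Complex.normSq (den s z) - Complex.normSq (num s z) =
    4 * Real.exp s * (1 - Complex.normSq z) := by
  unfold den num
  simp only [Complex.normSq_apply, Complex.add_re, Complex.add_im, Complex.re_ofReal_mul,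
    Complex.im_ofReal_mul, Complex.ofReal_re, Complex.ofReal_im]
  ring

theorem one_sub_T (s : ℝ) {z : ℂ} (hz : ‖z‖ < 1) : 1 - Complex.normSq (T s z) =
    4 * Real.exp s * (1 - Complex.normSq z) / Complex.normSq (den s z) := by
  have h1 : Complex.normSq (den s z) ≠ 0 := fun h => den_ne s hz (Complex.normSq_eq_zero.mp h)
  unfold T
  rw [Complex.normSq_div, ← den_sub_num]
  field_simp

theorem T_mem (s : ℝ) {z : ℂ} (hz : ‖z‖ < 1) : ‖T s z‖ < 1 := by
  apply norm_lt_of_normSq
  have h1 : 0 < Complex.normSq (den s z) := Complex.normSq_pos.mpr (den_ne s hz)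
  have h2 := one_sub_T s hz
  have h3 : 0 < 4 * Real.exp s * (1 - Complex.normSq z) / Complex.normSq (den s z) := by
    have := normSq_lt hz
    have h4 : 0 < 1 - Complex.normSq z := by linarith
    positivity
  linarith

/-- the sinh of the signed distance to the real axis -/
noncomputable def V (z : ℂ) : ℝ := 2 * z.im / (1 - Complex.normSq z)
/-- the sinh of the signed distance to the imaginary axis -/
noncomputable def U (z : ℂ) : ℝ := 2 * z.re / (1 - Complex.normSq z)
noncomputable def m (z : ℂ) : ℝ := Complex.normSq (1 + z) / (1 - Complex.normSq z)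

theorem V_T (s : ℝ) {z : ℂ} (hz : ‖z‖ < 1) : V (T s z) = V z := by
  have h1 : Complex.normSq (den s z) ≠ 0 := fun h => den_ne s hz (Complex.normSq_eq_zero.mp h)
  have h2 : 1 - Complex.normSq z ≠ 0 := by have := normSq_lt hz; linarith
  have h3 : Real.exp s ≠ 0 := (Real.exp_pos s).ne'
  have h4 : (T s z).im = 4 * Real.exp s * z.im / Complex.normSq (den s z) := by
    unfold T
    rw [Complex.div_im]
    have h5 : (num s z).im * (den s z).re - (num s z).re * (den s z).im =
        4 * Real.exp s * z.im := by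
      unfold den num
      simp only [Complex.add_re, Complex.add_im, Complex.re_ofReal_mul,
        Complex.im_ofReal_mul, Complex.ofReal_re, Complex.ofReal_im]
      ring
    rw [← h5]
    ring
  unfold V
  rw [one_sub_T s hz, h4]
  field_simp

theorem m_T (s : ℝ) {z : ℂ} (hz : ‖z‖ < 1) : m (T s z) = Real.exp s * m z := by
  have h0 := den_ne s hz
  have h1 : Complex.normSq (den s z) ≠ 0 := fun h => den_ne s hz (Complex.normSq_eq_zero.mp h)
  have h2 : 1 - Complex.normSq z ≠ 0 := by have := normSq_lt hz; linarith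
  have h3 : Real.exp s ≠ 0 := (Real.exp_pos s).ne'
  have h4 : 1 + T s z = ((2 * Real.exp s : ℝ) : ℂ) * (1 + z) / den s z := by
    unfold T
    field_simp
    unfold den num
    push_cast
    ring
  unfold m
  rw [one_sub_T s hz, h4, Complex.normSq_div, Complex.normSq_mul, Complex.normSq_ofReal]
  field_simp
  ring

theorem T_zero (z : ℂ) : T 0 z = z := by
  unfold T num den
  simp

theorem T_add (s s' : ℝ) {z : ℂ} (hz : ‖z‖ < 1) : T s (T s' z) = T (s + s') z := by
  have h1 := den_ne s' hz
  have h2 := den_ne s (T_mem s' hz)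
  have h3 := den_ne (s + s') hz
  have hT : T s' z * den s' z = num s' z := div_mul_cancel₀ _ h1
  have h4 : den s (T s' z) * den s' z = 2 * den (s + s') z := by
    have e0 : den s (T s' z) = (Real.exp s - 1 : ℝ) * T s' z + (Real.exp s + 1 : ℝ) := rfl
    have : den s (T s' z) * den s' z = (Real.exp s - 1 : ℝ) * num s' z +
        (Real.exp s + 1 : ℝ) * den s' z := by
      rw [e0]
      linear_combination ((Real.exp s - 1 : ℝ) : ℂ) * hT
    rw [this]
    unfold num den
    rw [Real.exp_add]
    push_cast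
    ring
  have h5 : num s (T s' z) * den s' z = 2 * num (s + s') z := by
    have e0 : num s (T s' z) = (Real.exp s + 1 : ℝ) * T s' z + (Real.exp s - 1 : ℝ) := rfl
    have : num s (T s' z) * den s' z = (Real.exp s + 1 : ℝ) * num s' z +
        (Real.exp s - 1 : ℝ) * den s' z := by
      rw [e0]
      linear_combination ((Real.exp s + 1 : ℝ) : ℂ) * hT
    rw [this]
    unfold num den
    rw [Real.exp_add]
    push_cast
    ring
  have e1 : T s (T s' z) = num s (T s' z) / den s (T s' z) := rfl
  have e2 : T (s + s') z = num (s + s') z / den (s + s') z := rfl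
  rw [e1, e2, div_eq_div_iff h2 h3]
  have h6 : (num s (T s' z) * den (s + s') z - num (s + s') z * den s (T s' z)) * den s' z = 0 := by
    linear_combination den (s + s') z * h5 - num (s + s') z * h4
  exact sub_eq_zero.mp ((mul_eq_zero.mp h6).resolve_right h1)

theorem m_eq {z : ℂ} (hz : ‖z‖ < 1) : m z = U z + √(1 + V z ^ 2 + U z ^ 2) := by
  have h2 : 0 < 1 - Complex.normSq z := by have := normSq_lt hz; linarith
  have h3 : √(1 + V z ^ 2 + U z ^ 2) = (1 + Complex.normSq z) / (1 - Complex.normSq z) := by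
    have h4 : 1 + V z ^ 2 + U z ^ 2 = ((1 + Complex.normSq z) / (1 - Complex.normSq z)) ^ 2 := by
      unfold V U
      field_simp
      rw [Complex.normSq_apply]
      ring
    rw [h4, Real.sqrt_sq]
    have := Complex.normSq_nonneg z
    positivity
  rw [h3]
  unfold m U
  field_simp
  simp only [Complex.normSq_apply, Complex.add_re, Complex.add_im, Complex.one_re, Complex.one_im]
  ring

/-- the coordinate along the orbits at the level `v` -/
noncomputable def g (v u : ℝ) : ℝ := u + √(1 + v ^ 2 + u ^ 2)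

theorem g_pos (v u : ℝ) : 0 < g v u := by
  unfold g
  have h1 : |u| < √(1 + v ^ 2 + u ^ 2) := by
    rw [← Real.sqrt_sq_eq_abs]
    apply Real.sqrt_lt_sqrt (sq_nonneg u)
    nlinarith [sq_nonneg v]
  have := neg_abs_le u
  linarith

theorem g_strictMono (v : ℝ) : StrictMono (g v) := by
  have key : ∀ a b : ℝ, 0 ≤ a → a < b → g v a < g v b := by
    intro a b ha hab
    unfold g
    have : √(1 + v ^ 2 + a ^ 2) ≤ √(1 + v ^ 2 + b ^ 2) := Real.sqrt_le_sqrt (by nlinarith)
    linarith
  have hmul : ∀ a : ℝ, g v a * g v (-a) = 1 + v ^ 2 := by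
    intro a
    unfold g
    have h1 : √(1 + v ^ 2 + a ^ 2) ^ 2 = 1 + v ^ 2 + a ^ 2 := Real.sq_sqrt (by positivity)
    rw [neg_sq]
    linear_combination h1
  intro a b hab
  rcases le_or_gt 0 a with ha | ha
  · exact key a b ha hab
  · rcases le_or_gt 0 b with hb | hb
    · have h1 : g v a ≤ g v 0 := by
        unfold g
        have h2 : √(1 + v ^ 2 + a ^ 2) ≤ √(1 + v ^ 2 + 0 ^ 2) + |a| := by
          rw [Real.sqrt_le_left (by positivity)]
          have h3 : √(1 + v ^ 2 + 0 ^ 2) ^ 2 = 1 + v ^ 2 + 0 ^ 2 := Real.sq_sqrt (by positivity)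
          have h4 := abs_nonneg a
          have h5 := sq_abs a
          nlinarith [Real.sqrt_nonneg (1 + v ^ 2 + 0 ^ 2), mul_nonneg (Real.sqrt_nonneg (1 + v ^ 2 + 0 ^ 2)) h4]
        rw [abs_of_neg ha] at h2
        linarith
      rcases hb.lt_or_eq with hb' | hb'
      · exact h1.trans_lt (key 0 b le_rfl hb')
      · rw [← hb']
        refine lt_of_le_of_ne h1 ?_
        intro he
        have h6 := hmul a
        have h7 := hmul 0
        rw [neg_zero, ← he] at h7
        have h8 : g v (-a) = g v a := by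
          have := g_pos v a
          have h9 : g v a * (g v (-a) - g v a) = 0 := by linear_combination h6 - h7
          linarith [(mul_eq_zero.mp h9).resolve_left this.ne']
        have h10 := key 0 (-a) le_rfl (by linarith)
        rw [h8, he] at h10
        exact lt_irrefl _ h10
    · have h1 := key (-b) (-a) (by linarith) (by linarith)
      have h2 := hmul a
      have h3 := hmul b
      have h4 := g_pos v a
      have h5 := g_pos v b
      have h6 := g_pos v (-a)
      have h7 := g_pos v (-b)
      by_contra hcon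
      push Not at hcon
      nlinarith

theorem g_lt_iff (v a b : ℝ) : g v a < g v b ↔ a < b := (g_strictMono v).lt_iff_lt

/-- the flow on the strip of the points at signed distance in `[-b, b)` to the real axis,
`B = sinh b` -/
noncomputable def flow (B : ℝ) : Flow ℂ where
  dom := {z | ‖z‖ < 1 ∧ -B ≤ V z ∧ V z < B}
  T := T
  t := fun z => Real.log (m z)
  lo := fun z => Real.log (g (V z) (-B))
  hi := fun z => Real.log (g (V z) B)
  mem := fun s z hz => ⟨T_mem s hz.1, by rw [V_T s hz.1]; exact hz.2⟩
  T_add := fun s s' z hz => T_add s s' hz.1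
  T_zero := fun z hz => T_zero z
  t_T := fun s z hz => by
    have h1 : 0 < m z := by rw [m_eq hz.1]; exact g_pos (V z) (U z)
    rw [m_T s hz.1, Real.log_mul (Real.exp_pos s).ne' h1.ne', Real.log_exp]
    ring
  lo_T := fun s z hz => by rw [V_T s hz.1]
  hi_T := fun s z hz => by rw [V_T s hz.1]

theorem t_lt_hi {B : ℝ} {z : ℂ} (hz : ‖z‖ < 1) :
    (flow B).t z < (flow B).hi z ↔ U z < B := by
  change Real.log (m z) < Real.log (g (V z) B) ↔ U z < B
  have h1 : m z = g (V z) (U z) := m_eq hz
  rw [h1, Real.log_lt_log_iff (g_pos _ _) (g_pos _ _), g_lt_iff]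

theorem lo_le_t {B : ℝ} {z : ℂ} (hz : ‖z‖ < 1) :
    (flow B).lo z ≤ (flow B).t z ↔ -B ≤ U z := by
  change Real.log (g (V z) (-B)) ≤ Real.log (m z) ↔ -B ≤ U z
  have h1 : m z = g (V z) (U z) := m_eq hz
  rw [h1, Real.log_le_log_iff (g_pos _ _) (g_pos _ _)]
  exact (g_strictMono (V z)).le_iff_le

end Q184.Edge
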