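import Mathlib
import Pool.Agent.Q184.Piece.Words

/-!
# The matrices of the maps on the lower edge, as polynomials in `t = tan (θ / 2)`, `α = sin θ`
-/

open Polynomial Q184.Piece

namespace Q184.Edge

/-- numerator polynomials -/
noncomputable def pp (j : Fin 3) : ℂ[X] :=
  if j = 0 then 1 - 4 * X ^ 2 - X ^ 4 else
    if j = 1 then 1 + X ^ 2 else
      (1 - 4 * X ^ 2 - X ^ 4) * (1 + X ^ 2) + 4 * X ^ 3 * (-(2 * X))

noncomputable def qq (j : Fin 3) : ℂ[X] :=
  if j = 0 then 4 * X ^ 3 else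
    if j = 1 then -(2 * X) else
      (1 - 4 * X ^ 2 - X ^ 4) * (-(2 * X)) + 4 * X ^ 3 * (1 + X ^ 2)

/-- the matrices -/
noncomputable def Mt (a : Fin 2 × Bool) (j : Fin 3) : Matrix (Fin 2) (Fin 2) ℂ[X] :=
  if a.1 = 0 then
    (if a.2 = true then !![pp j, qq j; qq j, pp j] else !![pp j, -qq j; -qq j, pp j])
  else
    (if a.2 = true then !![pp j, C Complex.I * qq j; -(C Complex.I * qq j), pp j]
      else !![pp j, -(C Complex.I * qq j); C Complex.I * qq j, pp j])

noncomputable def xi (a : Fin 2 × Bool) : ℂ :=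
  if a.1 = 0 then (if a.2 = true then -1 else 1) else (if a.2 = true then Complex.I else -Complex.I)

noncomputable def eta (a : Fin 2 × Bool) : ℂ :=
  if a.1 = 0 then (if a.2 = true then -1 else 1) else (if a.2 = true then -Complex.I else Complex.I)

theorem eta_ne (a : Fin 2 × Bool) : eta a ≠ 0 := by
  unfold eta
  split_ifs <;> simp [Complex.I_ne_zero]

theorem eta_xi (a b : Fin 2 × Bool) (h : a.1 = b.1 → a.2 = b.2) : 1 + eta a * xi b ≠ 0 := by
  have e1 : (1 : ℂ) + Complex.I ≠ 0 := by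
    intro h
    have := congrArg Complex.re h
    simp at this
  have e2 : (1 : ℂ) - Complex.I ≠ 0 := by
    intro h
    have := congrArg Complex.re h
    simp at this
  obtain ⟨a1, a2⟩ := a
  obtain ⟨b1, b2⟩ := b
  fin_cases a1 <;> fin_cases b1 <;> cases a2 <;> cases b2 <;>
    simp [eta, xi] at h ⊢ <;> first
    | (norm_num; done)
    | (intro h0; apply e1; linear_combination h0)
    | (intro h0; apply e2; linear_combination h0)

theorem pp_one (j : Fin 3) : (pp j).eval 1 ≠ 0 := by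
  fin_cases j <;> simp [pp] <;> norm_num

theorem qq_one (j : Fin 3) : (qq j).eval 1 = -(pp j).eval 1 := by
  fin_cases j <;> simp [pp, qq] <;> norm_num

theorem Mt_one (a : Fin 2 × Bool) (j : Fin 3) : (Mt a j).map (eval 1) =
    (pp j).eval 1 • !![1, eta a; xi a, xi a * eta a] := by
  have hq := qq_one j
  obtain ⟨a1, a2⟩ := a
  ext i k
  fin_cases a1 <;> cases a2 <;> fin_cases i <;> fin_cases k <;>
    simp [Mt, eta, xi, hq, -eval_pow] <;> ring_nf

theorem prod_one (L : List ((Fin 2 × Bool) × Fin 3)) (hL : L ≠ [])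
    (hr : FreeGroup.IsReduced (L.map Prod.fst)) :
    ∃ c η : ℂ, c ≠ 0 ∧ η ≠ 0 ∧ ∃ a ∈ (L.map Prod.fst).head?,
      prodMat (fun a j => (Mt a j).map (eval 1)) L = c • !![1, η; xi a, xi a * η] := by
  induction L with
  | nil => exact absurd rfl hL
  | cons x L ih =>
    by_cases h0 : L = []
    · subst h0
      refine ⟨(pp x.2).eval 1, eta x.1, pp_one _, eta_ne _, x.1, by simp, ?_⟩
      rw [prodMat_cons, prodMat_nil, mul_one, Mt_one]
    · obtain ⟨y, L', rfl⟩ := List.exists_cons_of_ne_nil h0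
      have hr' : FreeGroup.IsReduced (y.1 :: L'.map Prod.fst) ∧
          (x.1.1 = y.1.1 → x.1.2 = y.1.2) := by
        have h2 := FreeGroup.isReduced_cons_cons.mp hr
        exact ⟨h2.2, h2.1⟩
      obtain ⟨c, η, hc, hη, a, ha, hp⟩ := ih h0 hr'.1
      have ha' : a = y.1 := by simpa using ha.symm
      subst ha'
      refine ⟨(pp x.2).eval 1 * c * (1 + eta x.1 * xi y.1), η,
        mul_ne_zero (mul_ne_zero (pp_one _) hc) (eta_xi _ _ hr'.2), hη, x.1, by simp, ?_⟩
      rw [prodMat_cons, hp, Mt_one]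
      ext i k
      fin_cases i <;> fin_cases k <;> simp [Matrix.mul_apply, Fin.sum_univ_two] <;> ring

theorem prod_not_scal (L : List ((Fin 2 × Bool) × Fin 3)) (hL : L ≠ [])
    (hr : FreeGroup.IsReduced (L.map Prod.fst)) : ¬ Scal (prodMat Mt L) := by
  rintro ⟨h1, -, -⟩
  obtain ⟨c, η, hc, hη, a, -, hp⟩ := prod_one L hL hr
  rw [prodMat_eval] at hp
  have h2 := congrFun (congrFun hp 0) 1
  simp [h1] at h2
  rcases h2 with h2 | h2
  · exact hc h2
  · exact hη h2

end Q184.Edge
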