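import Mathlib
import Pool.Agent.Q184.Edge.Defs
import Pool.Agent.Q184.Edge.Disk
import Pool.Agent.Q184.Edge.Mats

/-!
# The maps on the lower edge
-/

open ComplexConjugate Set Q184.Piece Polynomial

namespace Q184.Edge

/-- `log ((1 + c) / (1 - c))` -/
noncomputable def ell (c : ℝ) : ℝ := Real.log ((1 + c) / (1 - c))

theorem exp_ell {c : ℝ} (hc : -1 < c) (hc' : c < 1) : Real.exp (ell c) = (1 + c) / (1 - c) := by
  unfold ell
  exact Real.exp_log (div_pos (by linarith) (by linarith))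

theorem ell_neg {c : ℝ} : ell (-c) = -ell c := by
  unfold ell
  rw [← Real.log_inv, inv_div]
  congr 1
  ring

theorem tau_eq_T {c : ℝ} (hc : -1 < c) (hc' : c < 1) (z : ℂ) : tau c z = T (ell c) z := by
  have h1 : (1 - c : ℂ) ≠ 0 := by
    have : (1 - c : ℝ) ≠ 0 := by linarith
    exact_mod_cast this
  have h2 : num (ell c) z = (2 / (1 - c)) * (z + c) := by
    unfold num
    rw [exp_ell hc hc']
    push_cast
    field_simp
    ring
  have h3 : den (ell c) z = (2 / (1 - c)) * (c * z + 1) := by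
    unfold den
    rw [exp_ell hc hc']
    push_cast
    field_simp
    ring
  have h4 : (2 / (1 - c) : ℂ) ≠ 0 := div_ne_zero two_ne_zero h1
  unfold T tau
  rw [h2, h3, mul_div_mul_left _ _ h4, Complex.conj_ofReal]

theorem H_iff {c s : ℝ} (hc : -1 < c) (hc' : c < 1) {z : ℂ} (hz : ‖z‖ < 1) :
    z ∈ H c s ↔ delta (T (-ell c) z) < s := by
  unfold H
  constructor
  · rintro ⟨w, ⟨hw1, hw2⟩, rfl⟩
    rw [tau_eq_T hc hc', T_add _ _ hw1, neg_add_cancel, T_zero]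
    exact hw2
  · intro h
    refine ⟨T (-ell c) z, ⟨T_mem _ hz, h⟩, ?_⟩
    rw [tau_eq_T hc hc', T_add _ _ hz, add_neg_cancel, T_zero]

theorem delta_eq (z : ℂ) : delta z = Real.arsinh (U z) := by
  unfold delta U
  rw [Complex.normSq_eq_norm_sq]

theorem delta_lt_iff (z : ℂ) (b : ℝ) : delta z < b ↔ U z < Real.sinh b := by
  rw [delta_eq]
  conv_lhs => rw [← Real.arsinh_sinh b]
  exact Real.arsinh_lt_arsinh

theorem le_delta_iff (z : ℂ) (b : ℝ) : -b ≤ delta z ↔ -Real.sinh b ≤ U z := by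
  rw [← Real.sinh_neg, delta_eq]
  conv_lhs => rw [← Real.arsinh_sinh (-b)]
  exact Real.arsinh_le_arsinh

theorem sigma_re (z : ℂ) : (sigma z).re = z.im := by simp [sigma]
theorem sigma_im (z : ℂ) : (sigma z).im = z.re := by simp [sigma]

theorem sigma_sigma (z : ℂ) : sigma (sigma z) = z := by
  apply Complex.ext
  · rw [sigma_re, sigma_im]
  · rw [sigma_im, sigma_re]

theorem normSq_sigma (z : ℂ) : Complex.normSq (sigma z) = Complex.normSq z := by
  rw [Complex.normSq_apply, Complex.normSq_apply, sigma_re, sigma_im]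
  ring

theorem norm_sigma (z : ℂ) : ‖sigma z‖ = ‖z‖ := by
  simp [sigma]

theorem U_sigma (z : ℂ) : U (sigma z) = V z := by
  unfold U V
  rw [sigma_re, normSq_sigma]

theorem barrel_eq (α : ℝ) : barrel α = (flow (Real.sinh (bee α))).Q := by
  ext z
  unfold barrel Flow.Q
  simp only [mem_setOf_eq]
  rw [delta_lt_iff, delta_lt_iff, le_delta_iff, le_delta_iff, U_sigma]
  constructor
  · rintro ⟨h1, ⟨h2, h3⟩, h4, h5⟩
    exact ⟨⟨h1, h4, h5⟩, (lo_le_t h1).mpr h2, (t_lt_hi h1).mpr h3⟩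
  · rintro ⟨⟨h1, h4, h5⟩, h2, h3⟩
    exact ⟨h1, ⟨(lo_le_t h1).mp h2, (t_lt_hi h1).mp h3⟩, h4, h5⟩

theorem sigma_barrel {α : ℝ} {z : ℂ} (hz : z ∈ barrel α) : sigma z ∈ barrel α := by
  obtain ⟨h1, h2, h3⟩ := hz
  refine ⟨by rw [norm_sigma]; exact h1, h3, ?_⟩
  rw [sigma_sigma]
  exact h2

/-- `φ` is the exchange of the flow -/
theorem phi_eq {α β : ℝ} (hα : 0 < α) (hα' : α < 1) (hβ : 0 < β) (hβ' : β < 1) {z : ℂ}
    (hz : z ∈ barrel α) :
    phi α β z = (flow (Real.sinh (bee α))).map (ell α) (ell β) z := by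
  have hz1 : ‖z‖ < 1 := hz.1
  set F := flow (Real.sinh (bee α)) with hF
  have hzF : z ∈ F.dom := by
    have := barrel_eq α ▸ hz
    exact this.1
  have e1 : z ∈ quadrangle α β ↔ F.t z + ell β < F.hi z := by
    unfold quadrangle
    rw [← F.t_T (ell β) z hzF, ← F.hi_T (ell β) z hzF]
    have hT : ‖F.T (ell β) z‖ < 1 := T_mem _ hz1
    rw [t_lt_hi hT]
    constructor
    · rintro ⟨-, h⟩
      have h2 := (H_iff (by linarith) (by linarith) hz1).mp h
      rw [ell_neg, neg_neg, delta_lt_iff] at h2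
      exact h2
    · intro h
      refine ⟨hz, (H_iff (by linarith) (by linarith) hz1).mpr ?_⟩
      rw [ell_neg, neg_neg, delta_lt_iff]
      exact h
  have e2 : z ∈ lens α ↔ F.lo z ≤ F.t z - ell α := by
    unfold lens
    rw [sub_eq_add_neg, ← F.t_T (-ell α) z hzF, ← F.lo_T (-ell α) z hzF]
    have hT : ‖F.T (-ell α) z‖ < 1 := T_mem _ hz1
    rw [lo_le_t hT]
    constructor
    · rintro ⟨-, h⟩
      have h2 := (not_congr (H_iff (by linarith) (by linarith) hz1)).mp h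
      rw [not_lt, le_delta_iff] at h2
      exact h2
    · intro h
      refine ⟨hz, (not_congr (H_iff (by linarith) (by linarith) hz1)).mpr ?_⟩
      rw [not_lt, le_delta_iff]
      exact h
  have f1 : tau β z = F.T (ell β) z := tau_eq_T (by linarith) hβ' z
  have f2 : ∀ w, tau ((-α : ℝ) : ℂ) w = F.T (-ell α) w := by
    intro w
    rw [tau_eq_T (by linarith) (by linarith), ell_neg]
    rfl
  have f3 : tau ((-α : ℝ) : ℂ) (tau β z) = F.T (ell β - ell α) z := by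
    rw [f1, f2, F.T_add _ _ _ hzF]
    congr 1
    ring
  unfold phi Flow.map
  by_cases h1 : z ∈ quadrangle α β
  · rw [if_pos h1, if_pos (e1.mp h1), f1]
  · rw [if_neg h1, if_neg (fun h => h1 (e1.mpr h))]
    by_cases h2 : z ∈ lens α
    · rw [if_pos h2, if_pos (e2.mp h2), f2]
    · rw [if_neg h2, if_neg (fun h => h2 (e2.mpr h)), f3]

/-! ### Parameters -/

theorem param {α : ℝ} (h0 : 0 < α) (h1 : α < √(2 * √3 - 3)) :
    (1 + α ^ 2 < 2 * √(1 - α ^ 2)) ∧ 0 < 1 - 2 * α ^ 2 ∧ α < 1 ∧ √(1 - α ^ 2) < 1 ∧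
      0 < √(1 - α ^ 2) := by
  have h3 : √3 ^ 2 = 3 := Real.sq_sqrt (by norm_num)
  have h3' : 0 ≤ √3 := Real.sqrt_nonneg 3
  have h4 : √3 < 7 / 4 := by nlinarith
  have h4' : 3 / 2 < √3 := by nlinarith
  have h5 : α ^ 2 < 2 * √3 - 3 := by
    have h6 : √(2 * √3 - 3) ^ 2 = 2 * √3 - 3 := Real.sq_sqrt (by linarith)
    nlinarith [Real.sqrt_nonneg (2 * √3 - 3)]
  have h7 : (α ^ 2 + 3) ^ 2 < 12 := by
    have : α ^ 2 + 3 < 2 * √3 := by linarith
    nlinarith [sq_nonneg α]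
  have h8 : α ^ 2 < 1 / 2 := by linarith
  refine ⟨?_, by linarith, by nlinarith, ?_, Real.sqrt_pos.mpr (by linarith)⟩
  · have h9 : √(1 - α ^ 2) ^ 2 = 1 - α ^ 2 := Real.sq_sqrt (by linarith)
    have h10 : 0 ≤ √(1 - α ^ 2) := Real.sqrt_nonneg _
    nlinarith [sq_nonneg α]
  · rw [Real.sqrt_lt' one_pos]
    have : 0 < α ^ 2 := by positivity
    linarith

theorem param_beta {α : ℝ} (h0 : 0 < α) (h1 : α < √(2 * √3 - 3)) :
    betaLow α * (√(1 - α ^ 2) - α ^ 2) = α * (1 - √(1 - α ^ 2)) ∧ 0 < betaLow α ∧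
      betaLow α < α ∧ 0 < √(1 - α ^ 2) - α ^ 2 := by
  obtain ⟨p1, p2, p3, p4, p5⟩ := param h0 h1
  have h2 : 0 < √(1 - α ^ 2) - α ^ 2 := by nlinarith
  have h3 : betaLow α * (√(1 - α ^ 2) - α ^ 2) = α * (1 - √(1 - α ^ 2)) := by
    unfold betaLow
    exact div_mul_cancel₀ _ h2.ne'
  refine ⟨h3, ?_, ?_, h2⟩
  · have h4 : 0 < α * (1 - √(1 - α ^ 2)) := mul_pos h0 (by linarith)
    rw [← h3] at h4
    exact (mul_pos_iff_of_pos_right h2).mp h4
  · have h5 : betaLow α * (√(1 - α ^ 2) - α ^ 2) < α * (√(1 - α ^ 2) - α ^ 2) := by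
      rw [h3]
      exact mul_lt_mul_of_pos_left (by linarith) h0
    exact lt_of_mul_lt_mul_right h5 h2.le

theorem sinh_bee {α : ℝ} (h0 : 0 < α) (h1 : 0 < 1 - 2 * α ^ 2) :
    0 < Real.sinh (bee α) ∧ Real.sinh (bee α) ^ 2 * (1 - 2 * α ^ 2) = α ^ 2 := by
  have hX : 1 < 1 / (1 - 2 * α ^ 2) := by
    rw [lt_div_iff₀ h1]
    have : 0 < α ^ 2 := by positivity
    linarith
  have h2 : Real.cosh (2 * bee α) = 1 / (1 - 2 * α ^ 2) := by
    unfold bee
    rw [← mul_assoc, mul_one_div_cancel two_ne_zero, one_mul, Real.cosh_arcosh hX.le]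
  have h3 : 0 < bee α := by
    unfold bee
    have := Real.arcosh_pos hX
    linarith
  refine ⟨Real.sinh_pos_iff.mpr h3, ?_⟩
  rw [Real.cosh_two_mul, Real.cosh_sq] at h2
  have h4 : (Real.sinh (bee α) ^ 2 + 1 + Real.sinh (bee α) ^ 2) * (1 - 2 * α ^ 2) = 1 := by
    rw [h2]
    exact one_div_mul_cancel h1.ne'
  linarith

theorem lengths {α : ℝ} (h0 : 0 < α) (h1 : α < √(2 * √3 - 3)) {z : ℂ}
    (hz : z ∈ (flow (Real.sinh (bee α))).Q) :
    ell α ≤ (flow (Real.sinh (bee α))).hi z - (flow (Real.sinh (bee α))).lo z ∧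
    ell (betaLow α) ≤ (flow (Real.sinh (bee α))).hi z - (flow (Real.sinh (bee α))).lo z ∧
    (flow (Real.sinh (bee α))).hi z - (flow (Real.sinh (bee α))).lo z ≤
      ell α + ell (betaLow α) := by
  obtain ⟨p1, p2, p3, p4, p5⟩ := param h0 h1
  obtain ⟨b1, b2, b3, b4⟩ := param_beta h0 h1
  obtain ⟨s1, s2⟩ := sinh_bee h0 p2
  have hc : √(1 - α ^ 2) ^ 2 = 1 - α ^ 2 := Real.sq_sqrt (by nlinarith)
  obtain ⟨c, hcdef⟩ : ∃ c, c = √(1 - α ^ 2) := ⟨_, rfl⟩
  obtain ⟨β, hβdef⟩ : ∃ β, β = betaLow α := ⟨_, rfl⟩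
  obtain ⟨B, hBdef⟩ : ∃ B, B = Real.sinh (bee α) := ⟨_, rfl⟩
  rw [← hcdef] at p1 p4 p5 b1 b4 hc
  rw [← hβdef] at b1 b2 b3 ⊢
  rw [← hBdef] at s1 s2 hz ⊢
  have hV : -B ≤ V z ∧ V z < B := hz.1.2
  have hV2 : V z ^ 2 ≤ B ^ 2 := by nlinarith [hV.1, hV.2]
  obtain ⟨S, hS⟩ : ∃ S, S = √(1 + V z ^ 2 + B ^ 2) := ⟨_, rfl⟩
  have hS2 : S ^ 2 = 1 + V z ^ 2 + B ^ 2 := by rw [hS]; exact Real.sq_sqrt (by positivity)
  have hS0 : 0 ≤ S := by rw [hS]; exact Real.sqrt_nonneg _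
  have hhi : (flow B).hi z = Real.log (B + S) := by
    change Real.log (g (V z) B) = _
    unfold g
    rw [hS]
  have hlo : (flow B).lo z = Real.log (-B + S) := by
    change Real.log (g (V z) (-B)) = _
    unfold g
    rw [neg_sq, hS]
  have hSB : B < S := by nlinarith [sq_nonneg (V z)]
  have hN : 0 < -B + S := by linarith
  have hM : 0 < B + S := by linarith
  rw [hhi, hlo]
  have hkey1 : α * S ≤ B := by
    have h3 : α ^ 2 * (1 + V z ^ 2 + B ^ 2) ≤ B ^ 2 := by nlinarith [sq_nonneg α]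
    have h4 : (α * S) ^ 2 ≤ B ^ 2 := by rw [mul_pow, hS2]; exact h3
    exact (pow_le_pow_iff_left₀ (by positivity) s1.le two_ne_zero).mp h4
  have hkey2 : B * (1 + α * β) ≤ S * (α + β) := by
    have h3 : B * c ≤ α * S := by
      have h4 : (B * c) ^ 2 ≤ (α * S) ^ 2 := by
        rw [mul_pow, mul_pow, hS2, hc]
        nlinarith [sq_nonneg (V z), sq_nonneg α, mul_nonneg (sq_nonneg α) (sq_nonneg (V z))]
      exact (pow_le_pow_iff_left₀ (by positivity) (by positivity) two_ne_zero).mp h4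
    have h5 : α * (1 + α * β) = c * (α + β) := by linear_combination -b1
    have h6 : α * (B * (1 + α * β)) ≤ α * (S * (α + β)) := by
      have : α * (B * (1 + α * β)) = (B * c) * (α + β) := by linear_combination B * h5
      rw [this]
      have h7 : (B * c) * (α + β) ≤ (α * S) * (α + β) :=
        mul_le_mul_of_nonneg_right h3 (by linarith)
      linarith
    exact le_of_mul_le_mul_left h6 h0
  have hα1 : 0 < 1 - α := by linarith
  have hβ1 : 0 < 1 - β := by linarith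
  have hell : ell β ≤ ell α := by
    unfold ell
    apply Real.log_le_log (by positivity)
    rw [div_le_div_iff₀ hβ1 hα1]
    nlinarith
  have h1 : ell α ≤ Real.log (B + S) - Real.log (-B + S) := by
    rw [le_sub_iff_add_le]
    unfold ell
    rw [← Real.log_mul (by positivity) hN.ne']
    apply Real.log_le_log (by positivity)
    rw [div_mul_eq_mul_div, div_le_iff₀ hα1]
    nlinarith
  refine ⟨h1, hell.trans h1, ?_⟩
  rw [sub_le_iff_le_add]
  unfold ell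
  rw [← Real.log_mul (by positivity) (by positivity), ← Real.log_mul (by positivity) hN.ne']
  apply Real.log_le_log hM
  rw [div_mul_div_comm, div_mul_eq_mul_div, le_div_iff₀ (by positivity)]
  nlinarith

theorem phi_bijOn {α : ℝ} (h0 : 0 < α) (h1 : α < √(2 * √3 - 3)) :
    BijOn (phi α (betaLow α)) (barrel α) (barrel α) := by
  obtain ⟨p1, p2, p3, p4, p5⟩ := param h0 h1
  obtain ⟨b1, b2, b3, b4⟩ := param_beta h0 h1
  have hpos : ∀ c : ℝ, 0 < c → c < 1 → 0 < ell c := by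
    intro c hc hc'
    unfold ell
    apply Real.log_pos
    rw [lt_div_iff₀ (by linarith)]
    linarith
  have h2 := (flow (Real.sinh (bee α))).bijOn (ell α) (ell (betaLow α)) (hpos α h0 p3)
    (hpos _ b2 (by linarith)) (fun z hz => lengths h0 h1 hz)
  rw [← barrel_eq] at h2
  exact h2.congr (fun z hz => (phi_eq h0 p3 b2 (by linarith) hz).symm)

theorem psi_bijOn {α : ℝ} (h0 : 0 < α) (h1 : α < √(2 * √3 - 3)) :
    BijOn (psi α (betaLow α)) (barrel α) (barrel α) := by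
  have hs : BijOn sigma (barrel α) (barrel α) := by
    refine ⟨fun z hz => sigma_barrel hz, ?_, fun z hz => ⟨sigma z, sigma_barrel hz, sigma_sigma z⟩⟩
    intro z _ w _ h
    rw [← sigma_sigma z, ← sigma_sigma w, h]
  exact hs.comp ((phi_bijOn h0 h1).comp hs)

/-! ### Matrices -/

theorem rel_tau {p q : ℂ} {c : ℝ} (hc : -1 < c) (hc' : c < 1) (hp : p ≠ 0) (hq : q = c * p)
    {z : ℂ} (hz : ‖z‖ < 1) : Rel !![p, q; q, p] z (tau c z) := by
  have h1 : (c : ℂ) * z + 1 ≠ 0 := by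
    intro h
    have h2 : (c : ℂ) * z = -1 := by linear_combination h
    have h3 := congrArg norm h2
    rw [norm_mul, Complex.norm_real, norm_neg, norm_one] at h3
    have h4 : ‖c‖ < 1 := by rw [Real.norm_eq_abs, abs_lt]; exact ⟨hc, hc'⟩
    nlinarith [norm_nonneg z, norm_nonneg c]
  refine ⟨p * (c * z + 1), mul_ne_zero hp h1, ?_, ?_⟩
  · unfold tau
    rw [Complex.conj_ofReal]
    simp only [Matrix.of_apply, Matrix.cons_val', Matrix.cons_val_zero, Matrix.cons_val_one,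
      Matrix.cons_val_fin_one]
    rw [hq, mul_assoc, mul_div_cancel₀ _ h1]
    ring
  · simp only [Matrix.of_apply, Matrix.cons_val', Matrix.cons_val_zero, Matrix.cons_val_one,
      Matrix.cons_val_fin_one]
    rw [hq]
    ring

theorem rel_inv {p q : ℂ} (h : p ^ 2 - q ^ 2 ≠ 0) {z z' : ℂ} (hr : Rel !![p, q; q, p] z z') :
    Rel !![p, -q; -q, p] z' z := by
  obtain ⟨k, hk, h1, h2⟩ := hr
  simp only [Matrix.of_apply, Matrix.cons_val', Matrix.cons_val_zero, Matrix.cons_val_one,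
    Matrix.cons_val_fin_one] at h1 h2
  refine ⟨(p ^ 2 - q ^ 2) / k, div_ne_zero h hk, ?_, ?_⟩
  · simp only [Matrix.of_apply, Matrix.cons_val', Matrix.cons_val_zero, Matrix.cons_val_one,
      Matrix.cons_val_fin_one]
    have e : z' = (p * z + q) / k := by rw [h1]; field_simp
    rw [e]
    field_simp
    linear_combination q * h2
  · simp only [Matrix.of_apply, Matrix.cons_val', Matrix.cons_val_zero, Matrix.cons_val_one,
      Matrix.cons_val_fin_one]
    have e : z' = (p * z + q) / k := by rw [h1]; field_simp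
    rw [e]
    field_simp
    linear_combination -p * h2

theorem rel_sigma {p q : ℂ} (hp : conj p = p) (hq : conj q = q) {z z' : ℂ}
    (hr : Rel !![p, q; q, p] z z') :
    Rel !![p, Complex.I * q; -(Complex.I * q), p] (sigma z) (sigma z') := by
  obtain ⟨k, hk, h1, h2⟩ := hr
  simp only [Matrix.of_apply, Matrix.cons_val', Matrix.cons_val_zero, Matrix.cons_val_one,
    Matrix.cons_val_fin_one] at h1 h2
  have h3 := congrArg conj h1
  have h4 := congrArg conj h2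
  rw [map_add, map_mul, map_mul, hp, hq] at h3
  rw [map_add, map_mul, hp, hq] at h4
  refine ⟨conj k, (_root_.map_ne_zero _).mpr hk, ?_, ?_⟩
  · simp only [Matrix.of_apply, Matrix.cons_val', Matrix.cons_val_zero, Matrix.cons_val_one,
      Matrix.cons_val_fin_one]
    unfold sigma
    linear_combination Complex.I * h3
  · simp only [Matrix.of_apply, Matrix.cons_val', Matrix.cons_val_zero, Matrix.cons_val_one,
      Matrix.cons_val_fin_one]
    unfold sigma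
    linear_combination h4 - q * conj z * Complex.I_mul_I

/-! ### Conclusion -/

theorem barrel_infinite {α : ℝ} (h0 : 0 < α) (h1 : 0 < 1 - 2 * α ^ 2) :
    (barrel α).Infinite := by
  have hb : 0 < bee α := Real.sinh_pos_iff.mp (sinh_bee h0 h1).1
  apply infinite_of_mem_nhds (0 : ℂ)
  have hU : ContinuousAt delta 0 := by
    unfold delta
    apply Real.continuous_arsinh.continuousAt.comp
    apply ContinuousAt.div
    · fun_prop
    · fun_prop
    · simp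
  have hd0 : delta 0 = 0 := by simp [delta]
  have hs0 : sigma 0 = 0 := by simp [sigma]
  have hσ : ContinuousAt (fun z => delta (sigma z)) 0 := by
    apply ContinuousAt.comp (g := delta)
    · rw [hs0]; exact hU
    · unfold sigma
      fun_prop
  have e1 : ∀ᶠ z : ℂ in nhds 0, ‖z‖ < 1 := by
    have : ContinuousAt (fun z : ℂ => ‖z‖) 0 := continuous_norm.continuousAt
    exact this.eventually_lt_const (by simp)
  have e2 : ∀ᶠ z : ℂ in nhds 0, -bee α < delta z ∧ delta z < bee α := by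
    have h2 : ∀ᶠ y in nhds (delta 0), -bee α < y ∧ y < bee α := by
      rw [hd0]
      exact (lt_mem_nhds (by linarith)).and (gt_mem_nhds hb)
    exact hU.eventually h2
  have e3 : ∀ᶠ z : ℂ in nhds 0, -bee α < delta (sigma z) ∧ delta (sigma z) < bee α := by
    have h2 : ∀ᶠ y in nhds (delta (sigma 0)), -bee α < y ∧ y < bee α := by
      rw [hs0, hd0]
      exact (lt_mem_nhds (by linarith)).and (gt_mem_nhds hb)
    exact hσ.eventually h2
  filter_upwards [e1, e2, e3] with z a b c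
  exact ⟨a, ⟨b.1.le, b.2⟩, c.1.le, c.2⟩

/-- the parameter `t = tan (θ / 2)` -/
noncomputable def tpar (α : ℝ) : ℝ := α / (1 + √(1 - α ^ 2))

theorem alpha_tpar {α : ℝ} (h0 : 0 < α) (h1 : α < 1) :
    2 * tpar α = α * (1 + tpar α ^ 2) ∧ √(1 - α ^ 2) * (1 + tpar α ^ 2) = 1 - tpar α ^ 2 := by
  have hc : √(1 - α ^ 2) ^ 2 = 1 - α ^ 2 := Real.sq_sqrt (by nlinarith)
  have hc0 : 0 ≤ √(1 - α ^ 2) := Real.sqrt_nonneg _
  have h2 : (1 + √(1 - α ^ 2)) ≠ 0 := by linarith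
  obtain ⟨c, hcdef⟩ : ∃ c, c = √(1 - α ^ 2) := ⟨_, rfl⟩
  obtain ⟨t, ht⟩ : ∃ t, t = tpar α := ⟨_, rfl⟩
  have ht' : t * (1 + c) = α := by
    rw [ht, hcdef]
    exact div_mul_cancel₀ _ h2
  rw [← hcdef] at hc hc0 h2 ⊢
  rw [← ht]
  have key : (1 + c) * (1 + t ^ 2) = 2 := by
    apply mul_left_cancel₀ h2
    linear_combination (t * (1 + c) + α) * ht' + hc
  constructor
  · linear_combination -t * key + (1 + t ^ 2) * ht'
  · linear_combination key

theorem evals {α : ℝ} (h0 : 0 < α) (h1 : α < √(2 * √3 - 3)) :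
    ∃ p q : Fin 3 → ℝ, (∀ j, (pp j).eval ((tpar α : ℝ) : ℂ) = p j) ∧
      (∀ j, (qq j).eval ((tpar α : ℝ) : ℂ) = q j) ∧ 0 < p 0 ∧ q 0 = betaLow α * p 0 ∧
      0 < p 1 ∧ q 1 = -α * p 1 ∧ p 2 = p 1 * p 0 + q 1 * q 0 ∧ q 2 = p 1 * q 0 + q 1 * p 0 := by
  obtain ⟨p1, p2, p3, p4, p5⟩ := param h0 h1
  obtain ⟨b1, b2, b3, b4⟩ := param_beta h0 h1
  obtain ⟨t1, t2⟩ := alpha_tpar h0 p3
  obtain ⟨t, ht⟩ : ∃ t, t = tpar α := ⟨_, rfl⟩
  obtain ⟨c, hc⟩ : ∃ c, c = √(1 - α ^ 2) := ⟨_, rfl⟩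
  obtain ⟨β, hβ⟩ : ∃ β, β = betaLow α := ⟨_, rfl⟩
  rw [← ht] at t1 t2 ⊢
  rw [← hc] at t2 b1 b4
  rw [← hβ] at b1 b2 b3 ⊢
  have hp0 : (1 - 4 * t ^ 2 - t ^ 4) = (c - α ^ 2) * (1 + t ^ 2) ^ 2 := by
    linear_combination (-(1 + t ^ 2)) * t2 + (-(2 * t) - α * (1 + t ^ 2)) * t1
  refine ⟨fun j => if j = 0 then 1 - 4 * t ^ 2 - t ^ 4 else if j = 1 then 1 + t ^ 2 else
      (1 - 4 * t ^ 2 - t ^ 4) * (1 + t ^ 2) + 4 * t ^ 3 * (-(2 * t)),
    fun j => if j = 0 then 4 * t ^ 3 else if j = 1 then -(2 * t) else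
      (1 - 4 * t ^ 2 - t ^ 4) * (-(2 * t)) + 4 * t ^ 3 * (1 + t ^ 2), ?_, ?_, ?_, ?_, ?_, ?_,
      ?_, ?_⟩
  · intro j
    fin_cases j <;> simp [pp]
  · intro j
    fin_cases j <;> simp [qq]
  · simp only [if_true]
    rw [hp0]
    positivity
  · simp only [if_true]
    rw [hp0]
    have h5 : β * ((c - α ^ 2) * (1 + t ^ 2) ^ 2) = α * (1 - c) * (1 + t ^ 2) ^ 2 := by
      linear_combination (1 + t ^ 2) ^ 2 * b1
    rw [h5]
    have h6 : α * (1 - c) * (1 + t ^ 2) ^ 2 = (α * (1 + t ^ 2)) * ((1 + t ^ 2) - c * (1 + t ^ 2)) := by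
      ring
    rw [h6, ← t1, t2]
    ring
  · simp only [one_ne_zero, if_false, if_true]
    positivity
  · simp only [one_ne_zero, if_false, if_true]
    linear_combination -t1
  · simp only [show (2 : Fin 3) ≠ 0 by decide, show (2 : Fin 3) ≠ 1 by decide, if_true,
      one_ne_zero, if_false]
    ring
  · simp only [show (2 : Fin 3) ≠ 0 by decide, show (2 : Fin 3) ≠ 1 by decide, if_true,
      one_ne_zero, if_false]
    ring

theorem rel_phi {α : ℝ} (h0 : 0 < α) (h1 : α < √(2 * √3 - 3)) {z : ℂ} (hz : z ∈ barrel α) :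
    ∃ j, Rel !![(pp j).eval ((tpar α : ℝ) : ℂ), (qq j).eval ((tpar α : ℝ) : ℂ);
      (qq j).eval ((tpar α : ℝ) : ℂ), (pp j).eval ((tpar α : ℝ) : ℂ)] z (phi α (betaLow α) z) := by
  obtain ⟨p1, p2, p3, p4, p5⟩ := param h0 h1
  obtain ⟨b1, b2, b3, b4⟩ := param_beta h0 h1
  obtain ⟨p, q, hp, hq, e1, e2, e3, e4, e5, e6⟩ := evals h0 h1
  have hz1 : ‖z‖ < 1 := hz.1
  have r0 : ∀ w : ℂ, ‖w‖ < 1 → Rel !![(p 0 : ℂ), q 0; q 0, p 0] w (tau (betaLow α) w) := fun w hw =>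
    rel_tau (by linarith) (by linarith) (by exact_mod_cast e1.ne') (by rw [e2]; push_cast; ring) hw
  have r1 : ∀ w : ℂ, ‖w‖ < 1 → Rel !![(p 1 : ℂ), q 1; q 1, p 1] w (tau ((-α : ℝ) : ℂ) w) :=
    fun w hw => rel_tau (by linarith) (by linarith) (by exact_mod_cast e3.ne')
      (by rw [e4]; push_cast; ring) hw
  unfold phi
  by_cases k1 : z ∈ quadrangle α (betaLow α)
  · refine ⟨0, ?_⟩
    rw [if_pos k1, hp, hq]
    exact r0 z hz1
  · by_cases k2 : z ∈ lens α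
    · refine ⟨1, ?_⟩
      rw [if_neg k1, if_pos k2, hp, hq]
      exact r1 z hz1
    · refine ⟨2, ?_⟩
      rw [if_neg k1, if_neg k2, hp, hq]
      have h3 : ‖tau (betaLow α) z‖ < 1 := by
        rw [tau_eq_T (by linarith) (by linarith)]
        exact T_mem _ hz1
      have h4 := (r0 z hz1).comp (r1 _ h3)
      convert! h4 using 1
      ext i k
      fin_cases i <;> fin_cases k <;> simp [Matrix.mul_apply, Fin.sum_univ_two, e5, e6] <;> ring

theorem det_ne {α : ℝ} (h0 : 0 < α) (h1 : α < √(2 * √3 - 3)) (j : Fin 3) :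
    (pp j).eval ((tpar α : ℝ) : ℂ) ^ 2 - (qq j).eval ((tpar α : ℝ) : ℂ) ^ 2 ≠ 0 := by
  obtain ⟨p1, p2, p3, p4, p5⟩ := param h0 h1
  obtain ⟨b1, b2, b3, b4⟩ := param_beta h0 h1
  obtain ⟨p, q, hp, hq, e1, e2, e3, e4, e5, e6⟩ := evals h0 h1
  rw [hp, hq]
  have k0 : 0 < p 0 ^ 2 - q 0 ^ 2 := by
    have : p 0 ^ 2 - q 0 ^ 2 = p 0 ^ 2 * (1 - betaLow α ^ 2) := by rw [e2]; ring
    rw [this]
    have : 0 < 1 - betaLow α ^ 2 := by nlinarith
    positivity
  have k1 : 0 < p 1 ^ 2 - q 1 ^ 2 := by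
    have : p 1 ^ 2 - q 1 ^ 2 = p 1 ^ 2 * (1 - α ^ 2) := by rw [e4]; ring
    rw [this]
    have : 0 < 1 - α ^ 2 := by nlinarith
    positivity
  have k2 : 0 < p 2 ^ 2 - q 2 ^ 2 := by
    have : p 2 ^ 2 - q 2 ^ 2 = (p 1 ^ 2 - q 1 ^ 2) * (p 0 ^ 2 - q 0 ^ 2) := by rw [e5, e6]; ring
    rw [this]
    positivity
  have : p j ^ 2 - q j ^ 2 ≠ 0 := by
    fin_cases j
    · exact k0.ne'
    · exact k1.ne'
    · exact k2.ne'
  exact_mod_cast this

/-- all properties on the lower edge, for a good parameter -/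
theorem main {α : ℝ} (h0 : 0 < α) (h1 : α < √(2 * √3 - 3))
    (hgood : Good Mt ((tpar α : ℝ) : ℂ)) :
    ∃ f : Fin 2 → Equiv.Perm (barrel α),
      (∀ x, (f 0 x : ℂ) = phi α (betaLow α) x) ∧ (∀ x, (f 1 x : ℂ) = psi α (betaLow α) x) ∧
      (∀ w : FreeGroup (Fin 2), w ≠ 1 → FreeGroup.lift f w ≠ 1) ∧
      (∀ g ∈ Subgroup.closure (range f), g ≠ 1 → {x | g x = x}.Finite) := by
  obtain ⟨p1, p2, p3, p4, p5⟩ := param h0 h1
  set f : Fin 2 → Equiv.Perm (barrel α) :=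
    ![(phi_bijOn h0 h1).equiv _, (psi_bijOn h0 h1).equiv _] with hf
  have hf0 : ∀ x, (f 0 x : ℂ) = phi α (betaLow α) x := fun x => rfl
  have hf1 : ∀ x, (f 1 x : ℂ) = psi α (betaLow α) x := fun x => rfl
  set M : Fin 2 × Bool → Fin 3 → Matrix (Fin 2) (Fin 2) ℂ :=
    fun a j => (Mt a j).map (eval ((tpar α : ℝ) : ℂ)) with hM
  have hM0 : ∀ j, M (0, true) j = !![(pp j).eval ((tpar α : ℝ) : ℂ),
      (qq j).eval ((tpar α : ℝ) : ℂ); (qq j).eval ((tpar α : ℝ) : ℂ),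
      (pp j).eval ((tpar α : ℝ) : ℂ)] := by
    intro j
    ext i k
    fin_cases i <;> fin_cases k <;> simp [hM, Mt]
  have hM1 : ∀ j, M (0, false) j = !![(pp j).eval ((tpar α : ℝ) : ℂ),
      -(qq j).eval ((tpar α : ℝ) : ℂ); -(qq j).eval ((tpar α : ℝ) : ℂ),
      (pp j).eval ((tpar α : ℝ) : ℂ)] := by
    intro j
    ext i k
    fin_cases i <;> fin_cases k <;> simp [hM, Mt]
  have hM2 : ∀ j, M (1, true) j = !![(pp j).eval ((tpar α : ℝ) : ℂ),
      Complex.I * (qq j).eval ((tpar α : ℝ) : ℂ); -(Complex.I * (qq j).eval ((tpar α : ℝ) : ℂ)),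
      (pp j).eval ((tpar α : ℝ) : ℂ)] := by
    intro j
    ext i k
    fin_cases i <;> fin_cases k <;> simp [hM, Mt]
  have hM3 : ∀ j, M (1, false) j = !![(pp j).eval ((tpar α : ℝ) : ℂ),
      Complex.I * -(qq j).eval ((tpar α : ℝ) : ℂ);
      -(Complex.I * -(qq j).eval ((tpar α : ℝ) : ℂ)),
      (pp j).eval ((tpar α : ℝ) : ℂ)] := by
    intro j
    ext i k
    fin_cases i <;> fin_cases k <;> simp [hM, Mt]
  obtain ⟨p, q, hp, hq, -⟩ := evals h0 h1
  have cp : ∀ j, conj ((pp j).eval ((tpar α : ℝ) : ℂ)) = (pp j).eval ((tpar α : ℝ) : ℂ) := by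
    intro j
    rw [hp, Complex.conj_ofReal]
  have cq : ∀ j, conj ((qq j).eval ((tpar α : ℝ) : ℂ)) = (qq j).eval ((tpar α : ℝ) : ℂ) := by
    intro j
    rw [hq, Complex.conj_ofReal]
  have r1 : ∀ a, ∀ x : barrel α, ∃ j, Rel (M (a, true) j) x (f a x) := by
    refine Fin.forall_fin_two.mpr ⟨fun x => ?_, fun x => ?_⟩
    · obtain ⟨j, hj⟩ := rel_phi h0 h1 x.2
      exact ⟨j, by rw [hM0]; exact hj⟩
    · obtain ⟨j, hj⟩ := rel_phi h0 h1 (sigma_barrel x.2)
      refine ⟨j, ?_⟩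
      rw [hM2]
      have h2 := rel_sigma (cp j) (cq j) hj
      rw [sigma_sigma] at h2
      exact h2
  have r2 : ∀ a, ∀ x : barrel α, ∃ j, Rel (M (a, false) j) (f a x) x := by
    refine Fin.forall_fin_two.mpr ⟨fun x => ?_, fun x => ?_⟩
    · obtain ⟨j, hj⟩ := rel_phi h0 h1 x.2
      exact ⟨j, by rw [hM1]; exact rel_inv (det_ne h0 h1 j) hj⟩
    · obtain ⟨j, hj⟩ := rel_phi h0 h1 (sigma_barrel x.2)
      refine ⟨j, ?_⟩
      rw [hM3]
      have h2 := rel_sigma (cp j) (by rw [map_neg, cq j]) (rel_inv (det_ne h0 h1 j) hj)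
      rw [sigma_sigma] at h2
      exact h2
  refine ⟨f, hf0, hf1, ?_, ?_⟩
  · exact lift_ne_one (barrel_infinite h0 p2) f M r1 r2 hgood
  · intro g hg hg1
    rw [← FreeGroup.range_lift_eq_closure] at hg
    obtain ⟨w, rfl⟩ := hg
    apply lift_fixed_finite f M r1 r2 hgood
    rintro rfl
    exact hg1 (map_one _)

end Q184.Edge
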