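import Mathlib
import Pool.Agent.Q184.Edge.Defs
import Pool.Agent.Q184.Edge.Disk

/-!
# `delta` is the signed distance to the imaginary axis
-/

open Set

namespace Q184.Edge

/-- `δ(z)` is negative exactly when `Re z < 0`. -/
theorem delta_neg_iff {z : ℂ} (hz : ‖z‖ < 1) : delta z < 0 ↔ z.re < 0 := by
  unfold delta
  rw [Real.arsinh_neg_iff]
  have h1 : 0 < 1 - ‖z‖ ^ 2 := by nlinarith [norm_nonneg z]
  rw [div_neg_iff]
  constructor
  · rintro (⟨-, h⟩ | ⟨h, -⟩)
    · linarith
    · linarith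
  · intro h
    exact Or.inr ⟨by linarith, h1⟩

/-- `|δ(z)|` is the least hyperbolic distance of `z` to a point of the imaginary axis. -/
theorem abs_delta_isLeast {z : ℂ} (hz : ‖z‖ < 1) :
    IsLeast {d : ℝ | ∃ s : ℝ, |s| < 1 ∧ d = hdist z (s * Complex.I)} |delta z| := by
  have hD : 0 < 1 - Complex.normSq z := by have := normSq_lt hz; linarith
  have hX : 0 ≤ Complex.normSq z := Complex.normSq_nonneg z
  obtain ⟨W, hW⟩ : ∃ W, W = (1 + Complex.normSq z) / (1 - Complex.normSq z) := ⟨_, rfl⟩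
  have hW0 : 0 < W := by rw [hW]; positivity
  have hWUV : W ^ 2 = 1 + U z ^ 2 + V z ^ 2 := by
    rw [hW]
    unfold U V
    field_simp
    rw [Complex.normSq_apply]
    ring
  -- the value
  have hval : ∀ s : ℝ, |s| < 1 → 1 + 2 * ‖z - s * Complex.I‖ ^ 2 /
      ((1 - ‖z‖ ^ 2) * (1 - ‖(s : ℂ) * Complex.I‖ ^ 2)) =
      W * ((1 + s ^ 2) / (1 - s ^ 2)) - V z * (2 * s / (1 - s ^ 2)) := by
    intro s hs
    have hs2 : 0 < 1 - s ^ 2 := by nlinarith [sq_abs s, abs_nonneg s]
    have h1 : ‖(s : ℂ) * Complex.I‖ ^ 2 = s ^ 2 := by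
      rw [norm_mul, Complex.norm_real, Complex.norm_I, mul_one, Real.norm_eq_abs, sq_abs]
    have h2 : ‖z - s * Complex.I‖ ^ 2 = Complex.normSq z - 2 * s * z.im + s ^ 2 := by
      rw [← Complex.normSq_eq_norm_sq, Complex.normSq_apply, Complex.normSq_apply]
      simp
      ring
    rw [h1, h2, ← Complex.normSq_eq_norm_sq, hW]
    unfold V
    field_simp
    ring
  have hR : √(1 + U z ^ 2) ^ 2 = 1 + U z ^ 2 := Real.sq_sqrt (by positivity)
  have hR0 : 0 < √(1 + U z ^ 2) := Real.sqrt_pos.mpr (by positivity)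
  have hdel : |delta z| = Real.arcosh (√(1 + U z ^ 2)) := by
    have h1 : Real.cosh |delta z| = √(1 + U z ^ 2) := by
      rw [Real.cosh_abs]
      have h2 : delta z = Real.arsinh (U z) := by
        unfold delta U
        rw [Complex.normSq_eq_norm_sq]
      rw [h2, Real.cosh_arsinh]
    rw [← h1, Real.arcosh_cosh (abs_nonneg _)]
  obtain ⟨R, hRdef⟩ : ∃ R, R = √(1 + U z ^ 2) := ⟨_, rfl⟩
  rw [← hRdef] at hR hR0 hdel
  have hWV : V z ^ 2 < W ^ 2 := by nlinarith [sq_nonneg (U z)]
  have hWR : W ^ 2 = R ^ 2 + V z ^ 2 := by rw [hWUV, hR]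
  constructor
  · have hV : |V z| < W := abs_lt_of_sq_lt_sq hWV hW0.le
    refine ⟨V z / (W + R), ?_, ?_⟩
    · rw [abs_div, abs_of_pos (by positivity : 0 < W + R), div_lt_one (by positivity)]
      linarith
    · unfold hdist
      rw [hval _ (by
        rw [abs_div, abs_of_pos (by positivity : 0 < W + R), div_lt_one (by positivity)]
        linarith), hdel]
      congr 1
      have h1 : 1 + (V z / (W + R)) ^ 2 = 2 * W / (W + R) := by
        field_simp
        linear_combination -hWR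
      have h2 : 1 - (V z / (W + R)) ^ 2 = 2 * R / (W + R) := by
        field_simp
        linear_combination hWR
      rw [h1, h2]
      field_simp
      linear_combination -hWR
  · rintro d ⟨s, hs, rfl⟩
    unfold hdist
    rw [hval s hs, hdel]
    have hs2 : 0 < 1 - s ^ 2 := by nlinarith [sq_abs s, abs_nonneg s]
    obtain ⟨C, hC⟩ : ∃ C, C = (1 + s ^ 2) / (1 - s ^ 2) := ⟨_, rfl⟩
    obtain ⟨S, hS⟩ : ∃ S, S = 2 * s / (1 - s ^ 2) := ⟨_, rfl⟩
    have hCS : C ^ 2 - S ^ 2 = 1 := by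
      rw [hC, hS]
      field_simp
      ring
    have hC0 : 0 < C := by rw [hC]; positivity
    rw [← hC, ← hS]
    have hSC : |S| < C := abs_lt_of_sq_lt_sq (by linarith) hC0.le
    have hV : |V z| < W := abs_lt_of_sq_lt_sq hWV hW0.le
    have hpos : 0 < W * C - V z * S := by
      have h1 : V z * S ≤ |V z| * |S| := by rw [← abs_mul]; exact le_abs_self _
      have h2 : |V z| * |S| < W * C := mul_lt_mul'' hV hSC (abs_nonneg _) (abs_nonneg _)
      linarith
    have hle : R ≤ W * C - V z * S := by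
      have h1 : R ^ 2 ≤ (W * C - V z * S) ^ 2 := by
        have : (W * C - V z * S) ^ 2 = R ^ 2 + (W * S - V z * C) ^ 2 := by
          linear_combination (W ^ 2 - V z ^ 2) * hCS + hWR
        rw [this]
        nlinarith [sq_nonneg (W * S - V z * C)]
      exact (pow_le_pow_iff_left₀ hR0.le hpos.le two_ne_zero).mp h1
    exact (Real.arcosh_le_arcosh hR0 hpos).mpr hle

end Q184.Edge
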